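import Mathlib

namespace Pool.Agent.Results.MP_21e00f_co.Lower

open Finset

/-- `t` pairwise compatible sum-distinct increasing sequences of `n` positive integers. -/
def Ok {t n : ℕ} (a : Fin t → Fin n → ℕ) : Prop :=
  (∀ j, StrictMono (a j)) ∧ (∀ j i, 0 < a j i) ∧
  (∀ j, ∀ I J : Finset (Fin n), ∑ i ∈ I, a j i = ∑ i ∈ J, a j i → I = J) ∧
  ∀ j l, j ≠ l → ∀ I J : Finset (Fin n), I.Nonempty → J.Nonempty → ∑ i ∈ I, a j i ≠ ∑ i ∈ J, a l i

/-- The least possible largest element. -/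
noncomputable def s (t n : ℕ) : ℕ := sInf {m | ∃ a : Fin t → Fin n → ℕ, Ok a ∧ ∀ j i, a j i ≤ m}

lemma build (t n : ℕ) (hn : 1 ≤ n) :
    ∃ a : Fin t → Fin n → ℕ, Ok a ∧ ∀ j i, a j i ≤ 7 * (t + n) * 2 ^ n := by
  obtain ⟨Q, Qp, Q1, Q2⟩ := Nat.exists_prime_lt_and_le_two_mul (t + n) (by omega)
  set k : Finset (Fin n) → ℕ := fun I => ∑ i ∈ I, 2 ^ i.val with hk
  have km : ∀ I, k I = ∑ i ∈ I.map Fin.valEmbedding, 2 ^ i := fun I => by simp [hk]
  have k1 : ∀ I, k I < 2 ^ n := fun I => by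
    rw [km]
    refine Nat.geomSum_lt le_rfl fun x hx => ?_
    obtain ⟨y, -, rfl⟩ := mem_map.1 hx
    exact y.2
  have k2 : ∀ I J, k I = k J → I = J := fun I J h => by
    rw [km, km] at h
    exact map_injective _ (geomSum_injective le_rfl h)
  have sm : ∀ (j : Fin t) (I : Finset (Fin n)), ∑ i ∈ I, (Q * (2 ^ n + n + 2 ^ i.val) + j.val) =
      Q * (I.card * (2 ^ n + n) + k I) + I.card * j.val := by
    intro j I
    simp only [sum_add_distrib, ← mul_sum, sum_const, smul_eq_mul, hk]; ring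
  have cd : ∀ (j l : Fin t) (I J : Finset (Fin n)), Q * (I.card * (2 ^ n + n) + k I) + I.card * j.val =
      Q * (J.card * (2 ^ n + n) + k J) + J.card * l.val → I.card ≤ J.card := by
    intro j l I J h
    by_contra c
    have c1 : J.card + 1 ≤ I.card := by omega
    have c2 : J.card ≤ n := by simpa using card_le_univ J
    have c3 : J.card * l.val ≤ n * Q := Nat.mul_le_mul c2 (by have := l.2; omega)
    have c4 := Nat.mul_le_mul_left Q (Nat.mul_le_mul_right (2 ^ n + n) c1)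
    have c5 := Nat.mul_lt_mul_of_pos_left (k1 J) Qp.pos
    nlinarith [Nat.zero_le (Q * k I), Nat.zero_le (I.card * j.val)]
  refine ⟨fun j i => Q * (2 ^ n + n + 2 ^ i.val) + j.val, ⟨fun j x y h => ?_, fun j i => ?_,
    fun j I J h => ?_, fun j l hjl I J hI hJ h => ?_⟩, fun j i => ?_⟩
  · have : 2 ^ x.val < 2 ^ y.val := Nat.pow_lt_pow_right (by norm_num) h
    have := Nat.mul_lt_mul_of_pos_left (show 2 ^ n + n + 2 ^ x.val < 2 ^ n + n + 2 ^ y.val by omega) Qp.pos
    simp only; omega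
  · have := Qp.pos
    positivity
  · rw [sm, sm] at h
    have e : I.card = J.card := le_antisymm (cd _ _ _ _ h) (cd _ _ _ _ h.symm)
    rw [e] at h
    have := Nat.eq_of_mul_eq_mul_left Qp.pos (Nat.add_right_cancel h)
    exact k2 _ _ (by omega)
  · rw [sm, sm] at h
    have e : I.card = J.card := le_antisymm (cd _ _ _ _ h) (cd _ _ _ _ h.symm)
    rw [e] at h
    have w0 : 0 < J.card := card_pos.2 hJ
    have w1 : J.card ≤ n := by simpa using card_le_univ J
    have h' : (J.card : ℤ) * ((j.val : ℤ) - l.val) = Q * ((k J : ℤ) - k I) := by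
      have : (Q : ℤ) * (J.card * (2 ^ n + n) + k I) + J.card * j.val =
        Q * (J.card * (2 ^ n + n) + k J) + J.card * l.val := by exact_mod_cast h
      linear_combination this
    rcases (Nat.prime_iff_prime_int.1 Qp).dvd_or_dvd ⟨_, h'⟩ with d | d
    · have := Int.le_of_dvd (by exact_mod_cast w0) d
      omega
    · have := Int.eq_zero_of_abs_lt_dvd d (abs_lt.2 ⟨by have := l.2; omega, by have := j.2; omega⟩)
      exact hjl (Fin.ext (by omega))
  · have a1 : 2 ^ i.val ≤ 2 ^ n := Nat.pow_le_pow_right (by norm_num) i.2.le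
    have a2 : n ≤ 2 ^ n := Nat.lt_two_pow_self.le
    have a3 := Nat.mul_le_mul Q2 (show 2 ^ n + n + 2 ^ i.val ≤ 3 * 2 ^ n by omega)
    have a4 : j.val ≤ (t + n) * 2 ^ n := by have := j.2; nlinarith
    simp only; nlinarith

/-- Lower bound. -/
theorem result (t n : ℕ) (_ht : 2 ≤ t) (hn : 1 ≤ n) : t * (2 ^ n - 1) ≤ n * s t n := by
  obtain ⟨a, ⟨-, h2, h3, h4⟩, h5⟩ : s t n ∈ _ := Nat.sInf_mem
    (s := {m | ∃ a : Fin t → Fin n → ℕ, Ok a ∧ ∀ j i, a j i ≤ m}) ⟨_, build t n hn⟩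
  have := card_le_card_of_injOn (s := (univ : Finset (Fin t)) ×ˢ (univ.erase (∅ : Finset (Fin n))))
    (t := Icc 1 (n * s t n)) (fun x => ∑ i ∈ x.2, a x.1 i) (fun x hx => by
      have ne : x.2.Nonempty := by simpa [nonempty_iff_ne_empty] using hx
      refine mem_coe.2 (mem_Icc.2 ⟨sum_pos (fun i _ => h2 _ _) ne, ?_⟩)
      refine (sum_le_card_nsmul _ _ _ fun i _ => h5 _ i).trans ?_
      exact Nat.mul_le_mul_right _ (by simpa using card_le_univ x.2)) (by
      rintro ⟨j, I⟩ hx ⟨l, J⟩ hy h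
      have n1 : I.Nonempty := by simpa [nonempty_iff_ne_empty] using hx
      have n2 : J.Nonempty := by simpa [nonempty_iff_ne_empty] using hy
      have e : j = l := by_contra fun c => h4 j l c I J n1 n2 h
      subst e
      rw [h3 j I J h])
  simpa [card_erase_of_mem] using this

end Pool.Agent.Results.MP_21e00f_co.Lower
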