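import Mathlib

namespace Pool.Agent.Results.MP_21e00f_co.Upper

open Finset

/-- `t` pairwise compatible sum-distinct increasing sequences of `n` positive integers. -/
def Ok {t n : ℕ} (a : Fin t → Fin n → ℕ) : Prop :=
  (∀ j, StrictMono (a j)) ∧ (∀ j i, 0 < a j i) ∧
  (∀ j, ∀ I J : Finset (Fin n), ∑ i ∈ I, a j i = ∑ i ∈ J, a j i → I = J) ∧
  ∀ j l, j ≠ l → ∀ I J : Finset (Fin n), I.Nonempty → J.Nonempty → ∑ i ∈ I, a j i ≠ ∑ i ∈ J, a l i

/-- The least possible largest element. -/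
noncomputable def s (t n : ℕ) : ℕ := sInf {m | ∃ a : Fin t → Fin n → ℕ, Ok a ∧ ∀ j i, a j i ≤ m}

lemma build (t n : ℕ) (hn : 1 ≤ n) :
    ∃ a : Fin t → Fin n → ℕ, Ok a ∧ ∀ j i, a j i ≤ 7 * (t + n) * 2 ^ n := by
  obtain ⟨Q, Qp, Q1, Q2⟩ := Nat.exists_prime_lt_and_le_two_mul (t + n) (by omega)
  set k : Finset (Fin n) → ℕ := fun I => ∑ i ∈ I, 2 ^ i.val with hk
  have km : ∀ I, k I = ∑ i ∈ I.map Fin.valEmbedding, 2 ^ i := fun I => by simp [hk]
  have k1 : ∀ I, k I < 2 ^ n := fun I => by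
    rw [km]
    refine Nat.geomSum_lt le_rfl fun x hx => ?_
    obtain ⟨y, -, rfl⟩ := mem_map.1 hx
    exact y.2
  have k2 : ∀ I J, k I = k J → I = J := fun I J h => by
    rw [km, km] at h
    exact map_injective _ (geomSum_injective le_rfl h)
  have sm : ∀ (j : Fin t) (I : Finset (Fin n)), ∑ i ∈ I, (Q * (2 ^ n + n + 2 ^ i.val) + j.val) =
      Q * (I.card * (2 ^ n + n) + k I) + I.card * j.val := by
    intro j I
    simp only [sum_add_distrib, ← mul_sum, sum_const, smul_eq_mul, hk]; ring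
  have cd : ∀ (j l : Fin t) (I J : Finset (Fin n)), Q * (I.card * (2 ^ n + n) + k I) + I.card * j.val =
      Q * (J.card * (2 ^ n + n) + k J) + J.card * l.val → I.card ≤ J.card := by
    intro j l I J h
    by_contra c
    have c1 : J.card + 1 ≤ I.card := by omega
    have c2 : J.card ≤ n := by simpa using card_le_univ J
    have c3 : J.card * l.val ≤ n * Q := Nat.mul_le_mul c2 (by have := l.2; omega)
    have c4 := Nat.mul_le_mul_left Q (Nat.mul_le_mul_right (2 ^ n + n) c1)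
    have c5 := Nat.mul_lt_mul_of_pos_left (k1 J) Qp.pos
    nlinarith [Nat.zero_le (Q * k I), Nat.zero_le (I.card * j.val)]
  refine ⟨fun j i => Q * (2 ^ n + n + 2 ^ i.val) + j.val, ⟨fun j x y h => ?_, fun j i => ?_,
    fun j I J h => ?_, fun j l hjl I J hI hJ h => ?_⟩, fun j i => ?_⟩
  · have : 2 ^ x.val < 2 ^ y.val := Nat.pow_lt_pow_right (by norm_num) h
    have := Nat.mul_lt_mul_of_pos_left (show 2 ^ n + n + 2 ^ x.val < 2 ^ n + n + 2 ^ y.val by omega) Qp.pos
    simp only; omega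
  · have := Qp.pos
    positivity
  · rw [sm, sm] at h
    have e : I.card = J.card := le_antisymm (cd _ _ _ _ h) (cd _ _ _ _ h.symm)
    rw [e] at h
    have := Nat.eq_of_mul_eq_mul_left Qp.pos (Nat.add_right_cancel h)
    exact k2 _ _ (by omega)
  · rw [sm, sm] at h
    have e : I.card = J.card := le_antisymm (cd _ _ _ _ h) (cd _ _ _ _ h.symm)
    rw [e] at h
    have w0 : 0 < J.card := card_pos.2 hJ
    have w1 : J.card ≤ n := by simpa using card_le_univ J
    have h' : (J.card : ℤ) * ((j.val : ℤ) - l.val) = Q * ((k J : ℤ) - k I) := by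
      have : (Q : ℤ) * (J.card * (2 ^ n + n) + k I) + J.card * j.val =
        Q * (J.card * (2 ^ n + n) + k J) + J.card * l.val := by exact_mod_cast h
      linear_combination this
    rcases (Nat.prime_iff_prime_int.1 Qp).dvd_or_dvd ⟨_, h'⟩ with d | d
    · have := Int.le_of_dvd (by exact_mod_cast w0) d
      omega
    · have := Int.eq_zero_of_abs_lt_dvd d (abs_lt.2 ⟨by have := l.2; omega, by have := j.2; omega⟩)
      exact hjl (Fin.ext (by omega))
  · have a1 : 2 ^ i.val ≤ 2 ^ n := Nat.pow_le_pow_right (by norm_num) i.2.le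
    have a2 : n ≤ 2 ^ n := Nat.lt_two_pow_self.le
    have a3 := Nat.mul_le_mul Q2 (show 2 ^ n + n + 2 ^ i.val ≤ 3 * 2 ^ n by omega)
    have a4 : j.val ≤ (t + n) * 2 ^ n := by have := j.2; nlinarith
    simp only; nlinarith

lemma small (n : ℕ) : n * (n * ((univ.filter fun I : Finset (Fin n) => 16 * I.card < n).card *
    (univ.filter fun I : Finset (Fin n) => 16 * I.card < n).card)) ≤ 64 * 2 ^ n := by
  set T := univ.filter fun I : Finset (Fin n) => 16 * I.card < n with hT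
  set N := T.card with hN
  have h1 : ∑ I : Finset (Fin n), 8 ^ (n - I.card) = 9 ^ n := by
    have := Fintype.sum_pow_mul_eq_add_pow (Fin n) (1 : ℕ) 8
    simpa using this
  have h2 : N * 8 ^ (n - n / 16) ≤ 9 ^ n := by
    rw [← h1]
    refine le_trans ?_ (sum_le_sum_of_subset (subset_univ T))
    refine card_nsmul_le_sum T _ _ fun I hI => Nat.pow_le_pow_right (by norm_num) ?_
    have := (mem_filter.1 hI).2
    omega
  have h3 : N ^ 16 * 8 ^ (15 * n) ≤ 64 ^ n * 8 ^ (15 * n) := by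
    calc N ^ 16 * 8 ^ (15 * n) ≤ N ^ 16 * 8 ^ ((n - n / 16) * 16) :=
          Nat.mul_le_mul_left _ (Nat.pow_le_pow_right (by norm_num) (by omega))
      _ = (N * 8 ^ (n - n / 16)) ^ 16 := by rw [mul_pow, pow_mul]
      _ ≤ (9 ^ n) ^ 16 := Nat.pow_le_pow_left h2 _
      _ = (9 ^ 16) ^ n := by rw [← pow_mul, ← pow_mul, mul_comm]
      _ ≤ (64 * 8 ^ 15) ^ n := Nat.pow_le_pow_left (by norm_num) _
      _ = _ := by rw [mul_pow, pow_mul]
  have h4 : N ^ 16 ≤ 64 ^ n := Nat.le_of_mul_le_mul_right h3 (by positivity)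
  have h5 : n ≤ 8 * 2 ^ (n / 8) := by
    have : n / 8 < 2 ^ (n / 8) := Nat.lt_two_pow_self
    omega
  have h6 : n ^ 16 ≤ 8 ^ 16 * 4 ^ n := by
    calc n ^ 16 ≤ (8 * 2 ^ (n / 8)) ^ 16 := Nat.pow_le_pow_left h5 _
      _ = 8 ^ 16 * 2 ^ (n / 8 * 16) := by rw [mul_pow, pow_mul]
      _ ≤ 8 ^ 16 * 2 ^ (2 * n) := Nat.mul_le_mul_left _ (Nat.pow_le_pow_right (by norm_num) (by omega))
      _ = _ := by rw [pow_mul]; norm_num
  refine (Nat.pow_le_pow_iff_left (n := 8) (by norm_num)).1 ?_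
  calc (n * (n * (N * N))) ^ 8 = n ^ 16 * N ^ 16 := by ring
    _ ≤ 8 ^ 16 * 4 ^ n * 64 ^ n := Nat.mul_le_mul h6 h4
    _ = 8 ^ 16 * (4 * 64) ^ n := by rw [mul_pow, mul_assoc]
    _ = (64 * 2 ^ n) ^ 8 := by rw [mul_pow 64, ← pow_mul 2, mul_comm n, pow_mul]; norm_num

lemma build2 (t n : ℕ) (hn : 1 ≤ n) (ht : 1 ≤ t) (htn : t ≤ n) :
    ∃ a : Fin t → Fin n → ℕ, Ok a ∧ ∀ j i, a j i ≤ 262 * t * 2 ^ n := by
  set k : Finset (Fin n) → ℕ := fun I => ∑ i ∈ I, 2 ^ i.val with hk
  have km : ∀ I, k I = ∑ i ∈ I.map Fin.valEmbedding, 2 ^ i := fun I => by simp [hk]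
  have k1 : ∀ I, k I < 2 ^ n := fun I => by
    rw [km]
    refine Nat.geomSum_lt le_rfl fun x hx => ?_
    obtain ⟨y, -, rfl⟩ := mem_map.1 hx
    exact y.2
  have k2 : ∀ I J, k I = k J → I = J := fun I J h => by
    rw [km, km] at h
    exact map_injective _ (geomSum_injective le_rfl h)
  have sm0 := small n
  set T := univ.filter fun I : Finset (Fin n) => 16 * I.card < n with hT
  set ρ := 64 * 2 ^ n / n + 1 with hρ
  have ρ1 : 64 * 2 ^ n < ρ * n := (Nat.div_lt_iff_lt_mul hn).1 (Nat.lt_succ_self _)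
  have ρ2 : ρ * n ≤ 65 * 2 ^ n := by
    have := Nat.div_mul_le_self (64 * 2 ^ n) n
    have : n ≤ 2 ^ n := Nat.lt_two_pow_self.le
    rw [hρ, add_mul]; omega
  obtain ⟨r, hr, hb⟩ := exists_mem_notMem_of_card_lt_card (t := Ico ρ (2 * ρ))
    (s := (range t ×ˢ T ×ˢ T).image fun x => (k x.2.1 - k x.2.2) / (x.2.1.card * x.1)) (by
      refine card_image_le.trans_lt ?_
      rw [card_product, card_product, card_range, Nat.card_Ico, show 2 * ρ - ρ = ρ by omega]
      refine Nat.lt_of_mul_lt_mul_left (a := n) ?_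
      have := Nat.mul_le_mul_left n (Nat.mul_le_mul_right (T.card * T.card) htn)
      nlinarith)
  obtain ⟨r1, r2⟩ := mem_Ico.1 hr
  have key : ∀ (I J : Finset (Fin n)) (d : ℕ), 0 < d → d < t → I.card = J.card → 0 < I.card →
      k I ≠ k J + I.card * d * r := by
    intro I J d d0 d1 e w0 h
    by_cases c : 16 * I.card < n
    · refine hb (mem_image.2 ⟨(d, I, J), ?_, ?_⟩)
      · simp [hT, d1, c, ← e]
      · simp only
        rw [h, Nat.add_sub_cancel_left, Nat.mul_div_cancel_left _ (by positivity)]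
    · have a1 : I.card * ρ ≤ I.card * d * r :=
        Nat.mul_le_mul (Nat.le_mul_of_pos_right _ d0) r1
      have a2 : ρ * n ≤ ρ * (16 * I.card) := Nat.mul_le_mul_left _ (by omega)
      have := k1 I
      nlinarith
  set B := 2 ^ n + n * (t * r) with hB
  have sm : ∀ (j : Fin t) (I : Finset (Fin n)), ∑ i ∈ I, (B + 2 ^ i.val + j.val * r) =
      I.card * B + k I + I.card * (j.val * r) := by
    intro j I
    simp only [sum_add_distrib, sum_const, smul_eq_mul, hk]
  have cd : ∀ (j l : Fin t) (I J : Finset (Fin n)), I.card * B + k I + I.card * (j.val * r) =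
      J.card * B + k J + J.card * (l.val * r) → I.card ≤ J.card := by
    intro j l I J h
    by_contra c
    have c1 : J.card + 1 ≤ I.card := by omega
    have c2 : J.card ≤ n := by simpa using card_le_univ J
    have c3 : J.card * (l.val * r) ≤ n * (t * r) := Nat.mul_le_mul c2 (Nat.mul_le_mul_right _ l.2.le)
    have c4 := Nat.mul_le_mul_right B c1
    have c5 := k1 J
    rw [add_mul, one_mul] at c4
    omega
  refine ⟨fun j i => B + 2 ^ i.val + j.val * r, ⟨fun j x y h => ?_, fun j i => by positivity,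
    fun j I J h => ?_, fun j l hjl I J hI hJ h => ?_⟩, fun j i => ?_⟩
  · have : 2 ^ x.val < 2 ^ y.val := Nat.pow_lt_pow_right (by norm_num) h
    simp only; omega
  · rw [sm, sm] at h
    have e : I.card = J.card := le_antisymm (cd _ _ _ _ h) (cd _ _ _ _ h.symm)
    rw [e] at h
    exact k2 _ _ (by omega)
  · rw [sm, sm] at h
    have e : I.card = J.card := le_antisymm (cd _ _ _ _ h) (cd _ _ _ _ h.symm)
    rcases lt_or_gt_of_ne (Fin.val_ne_of_ne hjl) with c | c
    · obtain ⟨d, hd⟩ : ∃ d, l.val = j.val + d := ⟨l.val - j.val, by omega⟩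
      refine key I J d (by omega) (by have := l.2; omega) e (card_pos.2 hI) ?_
      rw [← e, hd] at h
      nlinarith
    · obtain ⟨d, hd⟩ : ∃ d, j.val = l.val + d := ⟨j.val - l.val, by omega⟩
      refine key J I d (by omega) (by have := j.2; omega) e.symm (card_pos.2 hJ) ?_
      rw [e, hd] at h
      nlinarith
  · have a1 : 2 ^ i.val ≤ 2 ^ n := Nat.pow_le_pow_right (by norm_num) i.2.le
    have a2 : j.val * r ≤ n * (t * r) :=
      (Nat.mul_le_mul_right _ j.2.le).trans (Nat.le_mul_of_pos_left _ hn)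
    have a3 : n * (t * r) ≤ 130 * t * 2 ^ n := by
      have b1 : r * n ≤ 2 * ρ * n := Nat.mul_le_mul_right _ r2.le
      have b2 : r * n ≤ 130 * 2 ^ n := by nlinarith
      nlinarith [Nat.mul_le_mul_left t b2]
    have a4 : 2 ^ n ≤ t * 2 ^ n := Nat.le_mul_of_pos_left _ ht
    simp only; nlinarith

/-- Upper bound. -/
theorem result (t n : ℕ) (ht : 2 ≤ t) (hn : 1 ≤ n) : s t n ≤ 262 * t * 2 ^ n := by
  rcases le_total t n with h | h
  · exact Nat.sInf_le (build2 t n hn (by omega) h)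
  · exact (Nat.sInf_le (build t n hn)).trans (Nat.mul_le_mul_right _ (by omega))

end Pool.Agent.Results.MP_21e00f_co.Upper
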